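import Pool.Agent.W662.KKS.Stmts3
import Pool.Agent.W646.KKS.Step

/-!
# KKS-HSTEP: one step with a cut by a projection of the masa
-/

set_option autoImplicit false
set_option linter.unusedSectionVars false

open scoped InnerProductSpace
open Pool.Agent.Helper278
open Pool.Agent.W662.KKS
open Pool.Agent.W646.KKS (conj_one dc_eq)

namespace Pool.Agent.W287.KKS

variable {H : Type} [NormedAddCommGroup H] [InnerProductSpace ℂ H] [CompleteSpace H]

theorem mem_vn_iff (N : VonNeumannAlgebra H) (z : H →L[ℂ] H) :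
    z ∈ N ↔ ∀ t ∈ Set.centralizer (N : Set (H →L[ℂ] H)), t * z = z * t := by
  constructor
  · intro hz t ht
    exact (ht z hz).symm
  · intro hz
    have h1 : z ∈ Set.centralizer (Set.centralizer (N : Set (H →L[ℂ] H))) := fun t ht => hz t ht
    rw [VonNeumannAlgebra.centralizer_centralizer] at h1
    exact h1

theorem mem_masa_iff {N : VonNeumannAlgebra H} {D : StarSubalgebra ℂ (H →L[ℂ] H)}
    (hD : IsMasa N D) (z : H →L[ℂ] H) :
    z ∈ D ↔ ∀ t ∈ (D : Set (H →L[ℂ] H)) ∪ Set.centralizer (N : Set (H →L[ℂ] H)),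
      t * z = z * t := by
  constructor
  · rintro hz t (ht | ht)
    · exact hD.comm t ht z hz
    · exact (ht z (hD.le z hz)).symm
  · intro hz
    apply hD.max
    · exact (mem_vn_iff N z).2 fun t ht => hz t (Or.inr ht)
    · intro t ht
      exact (hz t (Or.inl ht)).symm

theorem masa_isClosed {N : VonNeumannAlgebra H} {D : StarSubalgebra ℂ (H →L[ℂ] H)}
    (hD : IsMasa N D) : IsClosed (D : Set (H →L[ℂ] H)) := by
  have h : (D : Set (H →L[ℂ] H)) =
      ⋂ t ∈ (D : Set (H →L[ℂ] H)) ∪ Set.centralizer (N : Set (H →L[ℂ] H)),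
        {x | t * x = x * t} := by
    ext x
    simp only [Set.mem_iInter]
    exact mem_masa_iff hD x
  rw [h]
  exact isClosed_biInter fun t _ => isClosed_eq (by fun_prop) (by fun_prop)

/-- the unitaries of a masa span it -/
theorem span_unitaries {N : VonNeumannAlgebra H} {D : StarSubalgebra ℂ (H →L[ℂ] H)}
    (hD : IsMasa N D) (S : Submodule ℂ (H →L[ℂ] H))
    (hS : ∀ u ∈ UU D, u ∈ S) : ∀ a ∈ D, a ∈ S := by
  let _inst : CStarAlgebra D := StarSubalgebra.cstarAlgebra D (h_closed := masa_isClosed hD)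
  have h1 := CStarAlgebra.span_unitary (A := D)
  intro a ha
  have h2 : (⟨a, ha⟩ : D) ∈ Submodule.span ℂ (unitary D : Set D) := by rw [h1]; trivial
  have h3 : Submodule.span ℂ (unitary D : Set D) ≤ S.comap D.subtype.toAlgHom.toLinearMap := by
    rw [Submodule.span_le]
    intro u hu
    have hu' := Unitary.mem_iff.1 hu
    show (u : H →L[ℂ] H) ∈ S
    exact hS _ ⟨u.2, congrArg Subtype.val hu'.1, congrArg Subtype.val hu'.2⟩
  exact h3 h2

/-- commuting with the unitaries is commuting with the masa -/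
theorem comm_of_uu {M : VonNeumannAlgebra H} {A : StarSubalgebra ℂ (H →L[ℂ] H)}
    (hA : IsMasa M A) (x : H →L[ℂ] H) (hx : ∀ u ∈ UU A, x * u = u * x) :
    ∀ a ∈ A, x * a = a * x := by
  let S : Submodule ℂ (H →L[ℂ] H) :=
    { carrier := {a | x * a = a * x}
      add_mem' := fun {a b} ha hb => by
        show x * (a + b) = (a + b) * x
        rw [mul_add, add_mul]
        exact congrArg₂ _ ha hb
      zero_mem' := by
        show x * 0 = 0 * x
        rw [mul_zero, zero_mul]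
      smul_mem' := fun c a ha => by
        show x * (c • a) = (c • a) * x
        rw [mul_smul_comm, smul_mul_assoc]
        exact congrArg _ ha }
  exact span_unitaries hA S hx

theorem rho_zero {M : VonNeumannAlgebra H} {ξ : H} {ρ : (H →L[ℂ] H) → (H →L[ℂ] H)}
    (hstd : Std M ξ ρ) : ρ 0 = 0 := by
  have h1 := hstd.smul 0 1 (one_mem M)
  rwa [zero_smul, zero_smul] at h1

/-- the same for the right copy -/
theorem comm_rho_of_uu {M : VonNeumannAlgebra H} {ξ : H} {ρ : (H →L[ℂ] H) → (H →L[ℂ] H)}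
    {A : StarSubalgebra ℂ (H →L[ℂ] H)} (hstd : Std M ξ ρ)
    (hA : IsMasa M A) (x : H →L[ℂ] H) (hx : ∀ u ∈ UU A, x * ρ u = ρ u * x) :
    ∀ a ∈ A, x * ρ a = ρ a * x := by
  let S : Submodule ℂ (H →L[ℂ] H) :=
    { carrier := {a | a ∈ M ∧ x * ρ a = ρ a * x}
      add_mem' := fun {a b} ha hb => by
        refine ⟨add_mem ha.1 hb.1, ?_⟩
        rw [hstd.add a ha.1 b hb.1, mul_add, add_mul, ha.2, hb.2]
      zero_mem' := by
        refine ⟨zero_mem M, ?_⟩
        rw [rho_zero hstd, mul_zero, zero_mul]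
      smul_mem' := fun c a ha => by
        refine ⟨M.toStarSubalgebra.smul_mem ha.1 c, ?_⟩
        rw [hstd.smul c a ha.1, mul_smul_comm, smul_mul_assoc, ha.2] }
  intro a ha
  exact (span_unitaries hA S (fun u hu => ⟨hA.le u hu.1, hx u hu⟩) a ha).2

theorem ug_uu {M : VonNeumannAlgebra H} {A : StarSubalgebra ℂ (H →L[ℂ] H)}
    (hA : IsMasa M A) : UG M (UU A) where
  one := ⟨A.one_mem, by rw [star_one, mul_one], by rw [star_one, mul_one]⟩
  mul := fun u hu v hv => ⟨A.mul_mem hu.1 hv.1, by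
      rw [star_mul, show star v * star u * (u * v) = star v * (star u * u) * v by
        noncomm_ring, hu.2.1, mul_one, hv.2.1], by
      rw [star_mul, show u * v * (star v * star u) = u * (v * star v) * star u by
        noncomm_ring, hv.2.2, mul_one, hu.2.2]⟩
  stm := fun u hu => ⟨A.star_mem' hu.1, by rw [star_star]; exact hu.2.2, by
    rw [star_star]; exact hu.2.1⟩
  su := fun u hu => hu.2.1
  us := fun u hu => hu.2.2
  mem := fun u hu => hA.le u hu.1

theorem norm_proj_le {p : H →L[ℂ] H} (hs : star p = p) (hp : p * p = p) : ‖p‖ ≤ 1 := by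
  have h1 : ‖p‖ * ‖p‖ = ‖p‖ := by
    have := CStarRing.norm_star_mul_self (x := p)
    rw [hs, hp] at this
    exact this.symm
  by_contra hcon
  push Not at hcon
  nlinarith [norm_nonneg p]

/-- better approximation of elements of `Q` by elements of the commutant -/
theorem approx {M : VonNeumannAlgebra H} {ξ : H} {ρ : (H →L[ℂ] H) → (H →L[ℂ] H)}
    {Q : Set (H →L[ℂ] H)} {γ δ : ℝ} (hstd : Std M ξ ρ)
    (hrn : RN (M.commutant : Set (H →L[ℂ] H)) M ξ)
    (hn : Near Q (M.commutant : Set (H →L[ℂ] H)) γ) (hγ : 0 < γ) (hδ : 0 ≤ δ)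
    (hDl : Dl (M : Set (H →L[ℂ] H)) Q ξ δ) (q : H →L[ℂ] H) (hq : q ∈ Q) :
    ∃ a ∈ M, ‖q - ρ a‖ ≤ 5 * γ * ‖q‖ ∧ ‖(q - ρ a) ξ‖ ≤ 8 * δ * ‖q‖ := by
  by_cases hq0 : q = 0
  · refine ⟨0, zero_mem M, ?_, ?_⟩
    · rw [hq0, rho_zero hstd]
      simp
    · rw [hq0, rho_zero hstd]
      simp
  have hqn : 0 < ‖q‖ := norm_pos_iff.2 hq0
  obtain ⟨r0, hr0, hqr0⟩ := hn q hq
  have hr0' : ∀ x ∈ M, x * r0 = r0 * x := fun x hx =>
    (VonNeumannAlgebra.mem_commutant_iff (S := M)).1 hr0 x hx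
  set s : ℝ := γ * ‖q‖ with hs
  have hspos : 0 < s := mul_pos hγ hqn
  set z : H →L[ℂ] H := ((s⁻¹ : ℝ) : ℂ) • (q - r0) with hz
  have hzn : ‖z‖ ≤ 1 := by
    rw [hz, norm_smul, Complex.norm_real, Real.norm_of_nonneg (inv_nonneg.2 hspos.le)]
    rw [inv_mul_le_iff₀ hspos, mul_one]
    exact hqr0
  have hsz : ((s : ℝ) : ℂ) • z = q - r0 := by
    rw [hz, smul_smul, ← Complex.ofReal_mul, mul_inv_cancel₀ hspos.ne', Complex.ofReal_one,
      one_smul]
  have hdom : ∀ b ∈ (M : Set (H →L[ℂ] H)), ‖b‖ ≤ 1 → ‖b (z ξ)‖ ≤ ‖b ξ‖ + δ / γ := by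
    intro b hb hb1
    have e1 : b (z ξ) = z (b ξ) + ((s⁻¹ : ℝ) : ℂ) • ((b * q - q * b) ξ) := by
      have e2 : b (r0 ξ) = r0 (b ξ) := by
        have := congrArg (fun T : H →L[ℂ] H => T ξ) (hr0' b hb)
        simpa using this
      simp only [hz, smul_apply, sub_apply, mul_apply_eq_comp, map_sub, map_smul,
        smul_sub, e2]
      abel
    rw [e1]
    refine (norm_add_le _ _).trans ?_
    have h1 : ‖z (b ξ)‖ ≤ ‖b ξ‖ := by
      refine (z.le_opNorm _).trans ?_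
      have := mul_le_mul_of_nonneg_right hzn (norm_nonneg (b ξ))
      linarith
    have h2 : ‖((s⁻¹ : ℝ) : ℂ) • ((b * q - q * b) ξ)‖ ≤ δ / γ := by
      rw [norm_smul, Complex.norm_real, Real.norm_of_nonneg (inv_nonneg.2 hspos.le)]
      rw [inv_mul_le_iff₀ hspos]
      have h3 := hDl b hb q hq
      have h4 : δ * ‖b‖ * ‖q‖ ≤ δ * 1 * ‖q‖ := by gcongr
      have h5 : s * (δ / γ) = δ * 1 * ‖q‖ := by
        rw [hs]
        field_simp
      rw [h5]
      exact h3.trans h4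
    linarith
  obtain ⟨r1, hr1, hr1n, hr1v⟩ := hrn (z ξ) (δ / γ) (div_nonneg hδ hγ.le) hdom
  have hr1' : ∀ x ∈ M, x * r1 = r1 * x := fun x hx =>
    (VonNeumannAlgebra.mem_commutant_iff (S := M)).1 hr1 x hx
  obtain ⟨a, ha, hra⟩ := hstd.surj (r0 + ((s : ℝ) : ℂ) • r1) (by
    intro x hx
    rw [add_mul, mul_add, hr0' x hx, smul_mul_assoc, mul_smul_comm, hr1' x hx])
  have hqa : q - ρ a = ((s : ℝ) : ℂ) • (z - r1) := by
    rw [← hra, smul_sub, hsz]
    abel
  refine ⟨a, ha, ?_, ?_⟩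
  · rw [hqa, norm_smul, Complex.norm_real, Real.norm_of_nonneg hspos.le]
    have h1 : ‖z - r1‖ ≤ 5 := (norm_sub_le _ _).trans (by linarith)
    have h2 := mul_le_mul_of_nonneg_left h1 hspos.le
    calc s * ‖z - r1‖ ≤ s * 5 := h2
      _ = 5 * γ * ‖q‖ := by rw [hs]; ring
  · rw [hqa]
    have e3 : (((s : ℝ) : ℂ) • (z - r1)) ξ = ((s : ℝ) : ℂ) • (z ξ - r1 ξ) := by
      simp only [smul_apply, sub_apply]
    rw [e3, norm_smul, Complex.norm_real, Real.norm_of_nonneg hspos.le]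
    have h2 := mul_le_mul_of_nonneg_left hr1v hspos.le
    calc s * ‖z ξ - r1 ξ‖ ≤ s * (8 * (δ / γ)) := h2
      _ = 8 * δ * ‖q‖ := by rw [hs]; field_simp

/-- cutting does not change the double commutator -/
theorem dc_cut {M : VonNeumannAlgebra H} {ξ : H} {ρ : (H →L[ℂ] H) → (H →L[ℂ] H)}
    (hstd : Std M ξ ρ) (S0 p x a : H →L[ℂ] H) (hp : p ∈ M) (hx : x ∈ M) (ha : a ∈ M)
    (hxp : x * p = x) (hpx : p * x = x) (hap : a * p = a) (hpa : p * a = a)
    (hSp : S0 * p = p * S0) (hSr : S0 * ρ p = ρ p * S0) :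
    dc ξ ρ (S0 * (p * ρ p)) x a = dc ξ ρ S0 x a := by
  have hz : ∀ z ∈ M, z * p = z → p * z = z → (S0 * (p * ρ p)) (z ξ) = S0 (z ξ) := by
    intro z hz hzp hpz
    have e1 : ρ p (z ξ) = z ξ := by
      have e2 : ρ p (z ξ) = z (ρ p ξ) := by
        have := congrArg (fun T : H →L[ℂ] H => T ξ) (hstd.comm p hp z hz)
        simpa using this
      rw [e2, hstd.vec p hp]
      have := congrArg (fun T : H →L[ℂ] H => T ξ) hzp
      simpa using this
    have e3 : p (z ξ) = z ξ := by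
      have := congrArg (fun T : H →L[ℂ] H => T ξ) hpz
      simpa using this
    rw [mul_apply_eq_comp, mul_apply_eq_comp, e1, e3]
  have h1 := hz a ha hap hpa
  have h2 := hz x hx hxp hpx
  have h3 := hz (x * a) (mul_mem hx ha) (by rw [mul_assoc, hap]) (by rw [← mul_assoc, hpx])
  rw [mul_apply_eq_comp x a] at h3
  have h4 : ρ a (x ((S0 * (p * ρ p)) ξ)) = ρ a (x (S0 ξ)) := by
    have e1 : ρ a * (x * (S0 * (p * ρ p))) = ρ a * (x * S0) := by
      have e2 : S0 * (p * ρ p) = p * (ρ p * S0) := by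
        rw [← mul_assoc, hSp, mul_assoc, hSr]
      rw [e2, ← mul_assoc x p, hxp, ← mul_assoc x (ρ p), ← hstd.comm p hp x hx, mul_assoc,
        ← mul_assoc (ρ a), ← hstd.mul p hp a ha, hpa]
    have := congrArg (fun T : H →L[ℂ] H => T ξ) e1
    simpa only [mul_apply_eq_comp] using this
  unfold dc
  simp only [sub_apply, mul_apply_eq_comp x, mul_apply_eq_comp _ x,
    map_sub]
  rw [h1, h2, h3, h4]

theorem bd_comm (x S t : H →L[ℂ] H) (ξ : H) :
    ‖(x * (S * t - t * S) - (S * t - t * S) * x) ξ‖ ≤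
      ‖x‖ * (‖S‖ * ‖t ξ‖ + ‖t‖ * ‖S ξ‖) + (‖S‖ * ‖t (x ξ)‖ + ‖t‖ * ‖S (x ξ)‖) := by
  have e1 : (x * (S * t - t * S) - (S * t - t * S) * x) ξ =
      x (S (t ξ) - t (S ξ)) - (S (t (x ξ)) - t (S (x ξ))) := by
    simp only [sub_apply, mul_apply_eq_comp]
  rw [e1]
  refine (norm_sub_le _ _).trans (add_le_add ?_ ?_)
  · refine (x.le_opNorm _).trans (mul_le_mul_of_nonneg_left ?_ (norm_nonneg x))
    exact (norm_sub_le _ _).trans (add_le_add (S.le_opNorm _) (t.le_opNorm _))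
  · exact (norm_sub_le _ _).trans (add_le_add (S.le_opNorm _) (t.le_opNorm _))

theorem bd_cws (x C W S : H →L[ℂ] H) (ξ : H) :
    ‖(x * (C * W * S) - (C * W * S) * x) ξ‖ ≤
      ‖x‖ * (‖C‖ * (‖W‖ * ‖S ξ‖)) + ‖C‖ * (‖W‖ * ‖S (x ξ)‖) := by
  have e1 : (x * (C * W * S) - (C * W * S) * x) ξ = x (C (W (S ξ))) - C (W (S (x ξ))) := by
    simp only [sub_apply, mul_apply_eq_comp]
  have h1 : ∀ v : H, ‖C (W v)‖ ≤ ‖C‖ * (‖W‖ * ‖v‖) := fun v =>
    (C.le_opNorm _).trans (mul_le_mul_of_nonneg_left (W.le_opNorm _) (norm_nonneg C))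
  rw [e1]
  refine (norm_sub_le _ _).trans (add_le_add ?_ (h1 _))
  exact (x.le_opNorm _).trans (mul_le_mul_of_nonneg_left (h1 _) (norm_nonneg x))

theorem norm_W_le (S W : H →L[ℂ] H) (hS : ‖S‖ ≤ 1 / 2) (hW : (1 - S) * W = 1) : ‖W‖ ≤ 2 := by
  have e1 : W = 1 + S * W := by
    rw [sub_mul, one_mul] at hW
    rw [← hW]
    abel
  have h1 : ‖W‖ ≤ 1 + 1 / 2 * ‖W‖ := by
    calc ‖W‖ = ‖1 + S * W‖ := by rw [← e1]
      _ ≤ ‖(1 : H →L[ℂ] H)‖ + ‖S * W‖ := norm_add_le _ _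
      _ ≤ 1 + 1 / 2 * ‖W‖ := by
        refine add_le_add ContinuousLinearMap.norm_id_le ?_
        exact (norm_mul_le _ _).trans (mul_le_mul_of_nonneg_right hS (norm_nonneg W))
  linarith

/-- the algebraic identity of the step -/
theorem key_id (x q qa ra S W : H →L[ℂ] H) (ξ c d : H) (hW : W * (1 - S) = 1)
    (hW' : (1 - S) * W = 1)
    (hc : c = (x * qa - qa * x) ξ)
    (hd : d = -((x * (S * ra - ra * S) - (S * ra - ra * S) * x) ξ)) :
    (x * ((1 - S) * q * W) - ((1 - S) * q * W) * x) ξ =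
      (x * (q - qa) - (q - qa) * x) ξ + (c + d) +
      (x * (S * (ra - q) - (ra - q) * S) - (S * (ra - q) - (ra - q) * S) * x) ξ -
      (x * ((S * q - q * S) * W * S) - ((S * q - q * S) * W * S) * x) ξ := by
  have e1 : W * S = W - 1 := by
    rw [mul_sub, mul_one] at hW
    rw [← hW]
    abel
  have e2 : S * W = W - 1 := by
    rw [sub_mul, one_mul] at hW'
    rw [← hW']
    abel
  have e3 : (1 - S) * q * W = q - (S * q - q * S) - (S * q - q * S) * W * S := by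
    have e4 : q * (S * W) = q * W - q := by rw [e2, mul_sub, mul_one]
    rw [mul_assoc (S * q - q * S) W S, e1]
    rw [mul_sub, mul_one, sub_mul (S * q), mul_assoc q S W, e4, sub_mul 1 S q, one_mul, sub_mul]
    abel
  rw [e3, hc, hd]
  simp only [sub_apply, mul_apply_eq_comp, map_sub]
  abel

theorem hstep (h0 : S_RNW) (hu : S_UNI) (he : S_EXT) (h1 : S_USEL) (h2 : S_UAVG)
    (h3 : S_LG3) : S_HSTEP := by
  obtain ⟨Ks, hKs, hsel⟩ := h1
  obtain ⟨Ku, hKu, huni⟩ := hu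
  obtain ⟨Ke, hKe, hext⟩ := he
  obtain ⟨Ka, hKa, havg⟩ := h2
  set m := Ku * Ks with hm
  set e := Ka * (Ke * (Ks * (1 + Ku))) with he'
  set K := 5 + 6 * Ks + 6 * e + 10 * m + 304 * m + 128 * m ^ 2 with hK
  have hKu0 : 0 < Ku := by linarith
  have hKs0 : 0 < Ks := by linarith
  have hKe0 : 0 < Ke := by linarith
  have hKa0 : 0 < Ka := by linarith
  have he0 : 0 < e := by positivity
  have hm0 : 0 < m := by positivity
  have hm2 : 0 < m ^ 2 := by positivity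
  have hK5 : 5 ≤ K := by
    rw [hK]
    linarith
  have hK1 : 1 ≤ K := by linarith
  have hK0 : 0 < K := by linarith
  have hKsK : Ks ≤ K := by
    rw [hK]
    linarith
  have hKm : 32 * m ≤ K := by
    rw [hK]
    linarith
  refine ⟨K, hK1, ?_⟩
  intro H _ _ _ M ξ ρ A P Q γ δ κ hstd hA hKP hγ hγK hδ hDl hκ hκδ
  have hγs : γ ≤ 1 / Ks := hγK.trans (one_div_le_one_div_of_le hKs0 hKsK)
  have hγ5 : 5 * γ ≤ 1 := by
    have h6 : K * γ ≤ 1 := by
      have := mul_le_mul_of_nonneg_left hγK hK0.le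
      rwa [mul_one_div_cancel hK0.ne'] at this
    have h7 : 5 * γ ≤ K * γ := mul_le_mul_of_nonneg_right hK5 hγ.le
    linarith
  have hγ1 : γ ≤ 1 := by linarith
  have hrn := h0 H M 1 ξ (by simp)
  rw [conj_one, conj_one] at hrn
  have hUG := ug_uu hA
  obtain ⟨c, T, T', hCD, hCM, hq⟩ :=
    hsel H M ξ ρ (UU A) P Q γ δ hstd hUG hrn.1 hrn.2 hKP hγ hγs hδ hDl
  have hδs : 0 ≤ Ks * δ := by positivity
  have hεs : 0 ≤ Ks * γ * δ := by positivity
  have hεδ : Ks * γ * δ ≤ Ks * δ := by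
    have := mul_le_mul_of_nonneg_left hγ1 hδs
    linarith
  obtain ⟨S00, hS00n, hS00v, hS00u⟩ := huni H M ξ ρ c T T' (Ks * γ) (Ks * δ) (Ks * γ * δ) hstd
    (by positivity) hδs hεs hεδ hCD
  have hS00x := hext H M ξ ρ c T T' (Ks * γ) (Ks * δ) (Ks * γ * δ) hstd hεs hCD S00
    (Ku * (Ks * γ * δ)) (by positivity) hS00u
  set E1 := Ke * (Ks * γ * δ + Ku * (Ks * γ * δ)) with hE1
  have hE1' : Ks * γ * δ ≤ E1 := by
    rw [hE1]
    have h6 : Ks * γ * δ ≤ Ks * γ * δ + Ku * (Ks * γ * δ) := by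
      have : 0 ≤ Ku * (Ks * γ * δ) := by positivity
      linarith
    have h7 : 0 ≤ Ks * γ * δ + Ku * (Ks * γ * δ) := by positivity
    nlinarith
  have hE10 : 0 ≤ E1 := by positivity
  have hCM' : CMU M ρ (UU A) c E1 := by
    refine ⟨hCM.left, ?_, ?_⟩
    · intro u hu x hx a ha
      refine (hCM.mid u hu x hx a ha).trans ?_
      gcongr
    · intro u hu x hx a ha
      refine (hCM.right u hu x hx a ha).trans ?_
      gcongr
  obtain ⟨S0, hS0n, hS0v, hS0U, hS0ρ, hS0x⟩ := havg H M ξ ρ (UU A) c S00 (Ku * (Ks * γ))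
    (Ku * (Ks * δ)) E1 hstd hUG
    (fun u hu v hv => hA.comm u hu.1 v hv.1) hE10 hCM' hCD.one2 hS00n hS00v hS00x
  have hS0A := comm_of_uu hA S0 hS0U
  have hS0ρA := comm_rho_of_uu hstd hA S0 hS0ρ
  set D := m * δ with hD
  have hD0 : 0 ≤ D := by positivity
  have hS0v' : ∀ a ∈ M, ‖S0 (a ξ)‖ ≤ D * ‖a‖ := by
    intro a ha
    refine (hS0v a ha).trans (le_of_eq ?_)
    rw [hD, hm]
    ring
  obtain ⟨p, hpA, hps, hpp, hpξ, hSp⟩ := h3 H M ξ ρ A hstd hA S0 D hD0 hS0v' hS0A hS0ρA κ hκ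
  have hpM : p ∈ M := hA.le p hpA
  have hpn : ‖p‖ ≤ 1 := norm_proj_le hps hpp
  have hρps : star (ρ p) = ρ p := by rw [← hstd.stm p hpM, hps]
  have hρpp : ρ p * ρ p = ρ p := by rw [← hstd.mul p hpM p hpM, hpp]
  have hρpn : ‖ρ p‖ ≤ 1 := norm_proj_le hρps hρpp
  set S := S0 * (p * ρ p) with hS
  have hSn : ‖S‖ ≤ 16 * κ * D := hSp
  have hSA : ∀ a ∈ A, S * a = a * S := by
    intro a ha
    rw [hS]
    calc S0 * (p * ρ p) * a = S0 * (p * (ρ p * a)) := by noncomm_ring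
      _ = S0 * (p * (a * ρ p)) := by rw [hstd.comm p hpM a (hA.le a ha)]
      _ = S0 * ((p * a) * ρ p) := by noncomm_ring
      _ = S0 * ((a * p) * ρ p) := by rw [hA.comm p hpA a ha]
      _ = (S0 * a) * (p * ρ p) := by noncomm_ring
      _ = a * (S0 * (p * ρ p)) := by rw [hS0A a ha]; noncomm_ring
  have hSρA : ∀ a ∈ A, S * ρ a = ρ a * S := by
    intro a ha
    have haM := hA.le a ha
    rw [hS]
    calc S0 * (p * ρ p) * ρ a = S0 * (p * (ρ p * ρ a)) := by noncomm_ring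
      _ = S0 * (p * (ρ a * ρ p)) := by
        rw [← hstd.mul a haM p hpM, ← hstd.mul p hpM a haM, hA.comm p hpA a ha]
      _ = S0 * ((p * ρ a) * ρ p) := by noncomm_ring
      _ = S0 * ((ρ a * p) * ρ p) := by rw [hstd.comm a haM p hpM]
      _ = (S0 * ρ a) * (p * ρ p) := by noncomm_ring
      _ = ρ a * (S0 * (p * ρ p)) := by rw [hS0ρA a ha]; noncomm_ring
  have hκ0 : 0 < κ := by linarith
  have hSn2 : ‖S‖ ≤ 1 / 2 := by
    refine hSn.trans ?_
    have h6 : κ * δ * K ≤ 1 := by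
      have := mul_le_mul_of_nonneg_right hκδ hK0.le
      rwa [one_div_mul_cancel hK0.ne'] at this
    have h7 : κ * δ * (32 * m) ≤ κ * δ * K := mul_le_mul_of_nonneg_left hKm (by positivity)
    rw [hD]
    linarith
  have hSn0 := norm_nonneg S
  -- S at vectors
  have hSv : ∀ a ∈ M, ‖S (a ξ)‖ ≤ D * ‖a‖ := by
    intro a ha
    have e1 : S (a ξ) = S0 ((p * a * p) ξ) := by
      have e2 : ρ p (a ξ) = a (p ξ) := by
        have h6 := congrArg (fun T : H →L[ℂ] H => T ξ) (hstd.comm p hpM a ha)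
        simp only [mul_apply_eq_comp] at h6
        rw [h6, hstd.vec p hpM]
      rw [hS]
      simp only [mul_apply_eq_comp]
      rw [e2]
    rw [e1]
    refine (hS0v' _ (mul_mem (mul_mem hpM ha) hpM)).trans ?_
    refine mul_le_mul_of_nonneg_left ?_ hD0
    calc ‖p * a * p‖ ≤ ‖p * a‖ * ‖p‖ := norm_mul_le _ _
      _ ≤ ‖p * a‖ * 1 := mul_le_mul_of_nonneg_left hpn (norm_nonneg _)
      _ ≤ ‖p‖ * ‖a‖ := by rw [mul_one]; exact norm_mul_le _ _
      _ ≤ 1 * ‖a‖ := mul_le_mul_of_nonneg_right hpn (norm_nonneg _)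
      _ = ‖a‖ := one_mul _
  have hSξ : ‖S ξ‖ ≤ D := by
    have h6 := hSv 1 (one_mem M)
    have h7 : ‖(1 : H →L[ℂ] H)‖ ≤ 1 := ContinuousLinearMap.norm_id_le
    have h8 : (1 : H →L[ℂ] H) ξ = ξ := rfl
    rw [h8] at h6
    have := mul_le_mul_of_nonneg_left h7 hD0
    linarith
  refine ⟨p, S, hpA, hps, hpp, hpξ, ?_, hSA, hSρA, ?_⟩
  · refine hSn.trans ?_
    have h6 : 16 * κ * D = (16 * m) * (κ * δ) := by rw [hD]; ring
    have h7 : K * κ * δ = K * (κ * δ) := by ring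
    rw [h6, h7]
    refine mul_le_mul_of_nonneg_right ?_ (by positivity)
    linarith
  · intro W hW1 hW2 x hx q hqQ hxp hqp
    have hWn : ‖W‖ ≤ 2 := norm_W_le S W hSn2 hW1
    have hxn := norm_nonneg x
    have hqn := norm_nonneg q
    -- one sided relations
    have hpx : p * x = x := by
      rw [← hxp]
      calc p * (p * x * p) = (p * p) * x * p := by noncomm_ring
        _ = p * x * p := by rw [hpp]
    have hxp' : x * p = x := by
      rw [← hxp]
      calc p * x * p * p = p * x * (p * p) := by noncomm_ring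
        _ = p * x * p := by rw [hpp]
    obtain ⟨a1, ha1, hqa1, hqa1v⟩ := approx hstd hrn.2 hKP.nQM' hγ hδ hDl q hqQ
    set a := p * a1 * p with ha_def
    have haM : a ∈ M := mul_mem (mul_mem hpM ha1) hpM
    have hpa : p * a = a := by
      rw [ha_def]
      calc p * (p * a1 * p) = (p * p) * a1 * p := by noncomm_ring
        _ = p * a1 * p := by rw [hpp]
    have hap : a * p = a := by
      rw [ha_def]
      calc p * a1 * p * p = p * a1 * (p * p) := by noncomm_ring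
        _ = p * a1 * p := by rw [hpp]
    have hρa : ρ a = ρ p * ρ a1 * ρ p := by
      rw [ha_def, hstd.mul _ (mul_mem hpM ha1) p hpM, hstd.mul p hpM a1 ha1, mul_assoc]
    have ht_eq : ρ a - q = -(ρ p * (q - ρ a1) * ρ p) := by
      have : ρ p * (q - ρ a1) * ρ p = ρ p * q * ρ p - ρ p * ρ a1 * ρ p := by noncomm_ring
      rw [this, hqp, hρa]
      abel
    -- the bound for t
    have htn : ‖ρ a - q‖ ≤ 5 * γ * ‖q‖ := by
      rw [ht_eq, norm_neg]
      calc ‖ρ p * (q - ρ a1) * ρ p‖ ≤ ‖ρ p * (q - ρ a1)‖ * ‖ρ p‖ := norm_mul_le _ _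
        _ ≤ ‖ρ p * (q - ρ a1)‖ * 1 := mul_le_mul_of_nonneg_left hρpn (norm_nonneg _)
        _ ≤ ‖ρ p‖ * ‖q - ρ a1‖ := by rw [mul_one]; exact norm_mul_le _ _
        _ ≤ 1 * ‖q - ρ a1‖ := mul_le_mul_of_nonneg_right hρpn (norm_nonneg _)
        _ ≤ 5 * γ * ‖q‖ := by rw [one_mul]; exact hqa1
    have htv : ‖(ρ a - q) ξ‖ ≤ 9 * δ * ‖q‖ := by
      have e1 : (ρ a - q) ξ = -(ρ p ((q - ρ a1) (p ξ))) := by
        rw [ht_eq]
        simp only [neg_apply, mul_apply_eq_comp]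
        rw [hstd.vec p hpM]
      have e2 : (q - ρ a1) (p ξ) = p ((q - ρ a1) ξ) - (p * q - q * p) ξ := by
        have h6 : ρ a1 (p ξ) = p (ρ a1 ξ) := by
          have := congrArg (fun T : H →L[ℂ] H => T ξ) (hstd.comm a1 ha1 p hpM)
          simpa only [mul_apply_eq_comp] using this
        simp only [sub_apply, mul_apply_eq_comp, map_sub, h6]
        abel
      have h7 : ‖(q - ρ a1) (p ξ)‖ ≤ 9 * δ * ‖q‖ := by
        rw [e2]
        refine (norm_sub_le _ _).trans ?_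
        have h8 : ‖p ((q - ρ a1) ξ)‖ ≤ 8 * δ * ‖q‖ := by
          refine (p.le_opNorm _).trans ?_
          have := mul_le_mul_of_nonneg_right hpn (norm_nonneg ((q - ρ a1) ξ))
          linarith
        have h9 : ‖(p * q - q * p) ξ‖ ≤ δ * ‖q‖ := by
          refine (hDl p hpM q hqQ).trans ?_
          have : δ * ‖p‖ * ‖q‖ ≤ δ * 1 * ‖q‖ := by gcongr
          linarith
        linarith
      rw [e1, norm_neg]
      refine ((ρ p).le_opNorm _).trans ?_
      have := mul_le_mul_of_nonneg_right hρpn (norm_nonneg ((q - ρ a1) (p ξ)))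
      linarith
    have htx : ‖(ρ a - q) (x ξ)‖ ≤ 10 * δ * ‖x‖ * ‖q‖ := by
      have e1 : (ρ a - q) (x ξ) = x ((ρ a - q) ξ) + (x * q - q * x) ξ := by
        have h6 : ρ a (x ξ) = x (ρ a ξ) := by
          have := congrArg (fun T : H →L[ℂ] H => T ξ) (hstd.comm a haM x hx)
          simpa only [mul_apply_eq_comp] using this
        simp only [sub_apply, mul_apply_eq_comp, map_sub, h6]
        abel
      rw [e1]
      refine (norm_add_le _ _).trans ?_
      have h7 : ‖x ((ρ a - q) ξ)‖ ≤ ‖x‖ * (9 * δ * ‖q‖) :=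
        (x.le_opNorm _).trans (mul_le_mul_of_nonneg_left htv hxn)
      have h8 := hDl x hx q hqQ
      linarith
    -- the norm of a
    have han : ‖a‖ ≤ 6 * ‖q‖ := by
      rw [← hstd.norm a haM]
      have h6 : ‖ρ a‖ ≤ ‖q‖ + ‖ρ a - q‖ := by
        have e1 : ρ a = q + (ρ a - q) := by abel
        conv_lhs => rw [e1]
        exact norm_add_le _ _
      have h7 : 5 * γ * ‖q‖ ≤ 1 * ‖q‖ := mul_le_mul_of_nonneg_right hγ5 hqn
      linarith
    obtain ⟨hqaQ, hqac⟩ := hq a haM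
    have hT'n := hCD.nT' a haM
    obtain ⟨qa, hqa⟩ : ∃ qa, qa = ρ a + T' a := ⟨_, rfl⟩
    rw [← hqa] at hqaQ hqac
    have hqqa : ‖q - qa‖ ≤ (5 + 6 * Ks) * γ * ‖q‖ := by
      have e1 : q - qa = -(ρ a - q) - T' a := by
        rw [hqa]
        abel
      rw [e1]
      refine (norm_sub_le _ _).trans ?_
      rw [norm_neg]
      have h6 : Ks * γ * ‖a‖ ≤ Ks * γ * (6 * ‖q‖) :=
        mul_le_mul_of_nonneg_left han (by positivity)
      linarith
    have hmem : q - qa ∈ Q := by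
      have e1 : q - qa = q + (-1 : ℂ) • qa := by
        rw [neg_smul, one_smul, sub_eq_add_neg]
      rw [e1]
      exact hKP.addQ _ hqQ _ (hKP.smulQ _ _ hqaQ)
    have g1 : ‖(x * (q - qa) - (q - qa) * x) ξ‖ ≤ (5 + 6 * Ks) * (γ * δ * ‖x‖ * ‖q‖) := by
      refine (hDl x hx _ hmem).trans ?_
      have := mul_le_mul_of_nonneg_left hqqa (mul_nonneg hδ hxn)
      refine this.trans (le_of_eq ?_)
      ring
    have hdc0 : dc ξ ρ S x a = dc ξ ρ S0 x a := dc_cut hstd S0 p x a hpM hx haM hxp' hpx hap hpa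
      (hS0A p hpA) (hS0ρA p hpA)
    have g2 : ‖c x a + dc ξ ρ S x a‖ ≤ 6 * e * (γ * δ * ‖x‖ * ‖q‖) := by
      rw [hdc0]
      refine (hS0x x hx a haM).trans ?_
      have := mul_le_mul_of_nonneg_left han
        (mul_nonneg (mul_nonneg hKa0.le hE10) hxn)
      refine this.trans (le_of_eq ?_)
      rw [hE1, he']
      ring
    have hSx := hSv x hx
    have hX : 0 ≤ ‖x‖ * ‖q‖ := by positivity
    have g3 : ‖(x * (S * (ρ a - q) - (ρ a - q) * S) - (S * (ρ a - q) - (ρ a - q) * S) * x) ξ‖ ≤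
        304 * m * (κ * δ ^ 2 * ‖x‖ * ‖q‖) + 10 * m * (γ * δ * ‖x‖ * ‖q‖) := by
      refine (bd_comm x S (ρ a - q) ξ).trans ?_
      have h6 : ‖x‖ * (‖S‖ * ‖(ρ a - q) ξ‖ + ‖ρ a - q‖ * ‖S ξ‖) +
          (‖S‖ * ‖(ρ a - q) (x ξ)‖ + ‖ρ a - q‖ * ‖S (x ξ)‖) ≤
          ‖x‖ * ((16 * κ * D) * (9 * δ * ‖q‖) + (5 * γ * ‖q‖) * D) +
          ((16 * κ * D) * (10 * δ * ‖x‖ * ‖q‖) + (5 * γ * ‖q‖) * (D * ‖x‖)) := by
        gcongr
      refine h6.trans (le_of_eq ?_)
      rw [hD]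
      ring
    have hCn : ‖S * q - q * S‖ ≤ 2 * ((16 * κ * D) * ‖q‖) := by
      refine (norm_sub_le _ _).trans ?_
      have h6 : ‖S * q‖ ≤ (16 * κ * D) * ‖q‖ :=
        (norm_mul_le _ _).trans (mul_le_mul_of_nonneg_right hSn hqn)
      have h7 : ‖q * S‖ ≤ (16 * κ * D) * ‖q‖ := by
        refine (norm_mul_le _ _).trans ?_
        rw [mul_comm]
        exact mul_le_mul_of_nonneg_right hSn hqn
      linarith
    have g4 : ‖(x * ((S * q - q * S) * W * S) - ((S * q - q * S) * W * S) * x) ξ‖ ≤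
        128 * m ^ 2 * (κ * δ ^ 2 * ‖x‖ * ‖q‖) := by
      refine (bd_cws x (S * q - q * S) W S ξ).trans ?_
      have h6 : ‖x‖ * (‖S * q - q * S‖ * (‖W‖ * ‖S ξ‖)) +
          ‖S * q - q * S‖ * (‖W‖ * ‖S (x ξ)‖) ≤
          ‖x‖ * ((2 * ((16 * κ * D) * ‖q‖)) * (2 * D)) +
          (2 * ((16 * κ * D) * ‖q‖)) * (2 * (D * ‖x‖)) := by
        gcongr
      refine h6.trans (le_of_eq ?_)
      rw [hD]
      ring
    rw [key_id x q qa (ρ a) S W ξ (c x a) (dc ξ ρ S x a) hW2 hW1 (hqac x hx)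
      (dc_eq M ξ ρ hstd S x a hx haM)]
    refine (norm_sub_le _ _).trans ?_
    have g5 := norm_add_le ((x * (q - qa) - (q - qa) * x) ξ + (c x a + dc ξ ρ S x a))
      ((x * (S * (ρ a - q) - (ρ a - q) * S) - (S * (ρ a - q) - (ρ a - q) * S) * x) ξ)
    have g6 := norm_add_le ((x * (q - qa) - (q - qa) * x) ξ) (c x a + dc ξ ρ S x a)
    set X1 := γ * δ * ‖x‖ * ‖q‖ with hX1
    set X2 := κ * δ ^ 2 * ‖x‖ * ‖q‖ with hX2
    have hX10 : 0 ≤ X1 := by positivity
    have hX20 : 0 ≤ X2 := by positivity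
    have e2 : K * (γ * δ + κ * δ ^ 2) * ‖x‖ * ‖q‖ = K * X1 + K * X2 := by
      rw [hX1, hX2]
      ring
    rw [e2]
    have hk1 : (5 + 6 * Ks + 6 * e + 10 * m) * X1 ≤ K * X1 := by
      refine mul_le_mul_of_nonneg_right ?_ hX10
      rw [hK]
      linarith
    have hk2 : (304 * m + 128 * m ^ 2) * X2 ≤ K * X2 := by
      refine mul_le_mul_of_nonneg_right ?_ hX20
      rw [hK]
      linarith
    linarith

end Pool.Agent.W287.KKS
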